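import Mathlib

set_option autoImplicit false

namespace Pool.Agent.Results.MP_2d7e0f_pr.SupAttained

open MeasureTheory Filter Topology

/-- The volume `V_C[u,v]`: the sum over all corners of the box, the set `T` being the set of
coordinates `k` with `ε_k = 0`, in which the corner has coordinate `u k`. -/
noncomputable def boxVol {n : ℕ} (C : (Fin n → unitInterval) → unitInterval)
    (u v : Fin n → unitInterval) : ℝ :=
  ∑ T : Finset (Fin n), (-1 : ℝ) ^ T.card * (C (fun k => if k ∈ T then u k else v k) : ℝ)

/-- `n`-copulas. -/
structure IsCopula {n : ℕ} (C : (Fin n → unitInterval) → unitInterval) : Prop where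
  grounded : ∀ (x : Fin n → unitInterval) (k : Fin n), x k = 0 → C x = 0
  margin : ∀ (x : Fin n → unitInterval) (k : Fin n), (∀ j, j ≠ k → x j = 1) → C x = x k
  increasing : ∀ u v : Fin n → unitInterval, u ≤ v → 0 ≤ boxVol C u v

/-- The lower Frechet bound `W^{n-1}`. -/
noncomputable def W {n : ℕ} (x : Fin n → unitInterval) : ℝ :=
  max (∑ k, (x k : ℝ) - n + 1) 0

/-- `s_n`: the supremum of the measures of measurable sets on which some `n`-copula
agrees with `W^{n-1}`. -/
noncomputable def s (n : ℕ) : ENNReal :=
  sSup {m | ∃ A : Set (Fin n → unitInterval), MeasurableSet A ∧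
    (∃ C : (Fin n → unitInterval) → unitInterval, IsCopula C ∧ ∀ x ∈ A, (C x : ℝ) = W x) ∧
    m = volume A}

variable {n : ℕ} {C : (Fin n → unitInterval) → unitInterval}

lemma mono_aux (hC : IsCopula C) (z : Fin n → unitInterval) (k : Fin n) (a b : unitInterval)
    (hab : a ≤ b) : (C (Function.update z k a) : ℝ) ≤ C (Function.update z k b) := by
  have h := hC.increasing (Function.update 0 k a) (Function.update z k b) (by
    intro j
    by_cases hj : j = k
    · subst hj; simpa using hab
    · simp [Function.update_of_ne hj])
  unfold boxVol at h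
  rw [Finset.sum_eq_add (∅ : Finset (Fin n)) {k} (by simp)] at h
  · simp only [Finset.card_empty, pow_zero, Finset.notMem_empty, if_false, one_mul,
      Finset.card_singleton, pow_one, Finset.mem_singleton] at h
    have e1 : (fun k' => if k' = k then Function.update (0 : Fin n → unitInterval) k a k'
        else Function.update z k b k') = Function.update z k a := by
      funext j
      by_cases hj : j = k
      · subst hj; simp
      · simp [hj]
    rw [e1] at h
    linarith
  · intro T _ hT
    obtain ⟨j, hjT, hjk⟩ : ∃ j, j ∈ T ∧ j ≠ k := by
      by_contra hcon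
      push Not at hcon
      rcases Finset.eq_empty_or_nonempty T with h0 | ⟨x, hx⟩
      · exact hT.1 h0
      · apply hT.2
        ext y
        rw [Finset.mem_singleton]
        constructor
        · exact hcon y
        · intro hy
          rw [hy, ← hcon x hx]; exact hx
    rw [hC.grounded _ j]
    · simp
    · simp [hjT, Function.update_of_ne hjk]
  · intro h; exact absurd (Finset.mem_univ _) h
  · intro h; exact absurd (Finset.mem_univ _) h

/-- increments in coordinate `k` increase with coordinate `j`. -/
lemma incr_aux (hC : IsCopula C) (z : Fin n → unitInterval) (k j : Fin n) (hjk : j ≠ k)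
    (a b : unitInterval) (hab : a ≤ b) :
    (C (Function.update z k b) : ℝ) - C (Function.update z k a) ≤
      C (Function.update (Function.update z j 1) k b) - C (Function.update (Function.update z j 1) k a) := by
  set u : Fin n → unitInterval := Function.update (Function.update 0 j (z j)) k a with hu
  set v : Fin n → unitInterval := Function.update (Function.update z j 1) k b with hv
  have h := hC.increasing u v (by
    intro i
    rw [hu, hv]
    by_cases hi : i = k
    · subst hi; simpa using hab
    · rw [Function.update_of_ne hi, Function.update_of_ne hi]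
      by_cases hij : i = j
      · subst hij; simp [unitInterval.le_one']
      · rw [Function.update_of_ne hij, Function.update_of_ne hij]; simp)
  unfold boxVol at h
  have hsub : ({∅, {k}, {j}, {k, j}} : Finset (Finset (Fin n))) ⊆ Finset.univ := Finset.subset_univ _
  rw [← Finset.sum_subset hsub] at h
  · rw [Finset.sum_insert, Finset.sum_insert, Finset.sum_insert, Finset.sum_singleton] at h
    · simp only [Finset.card_empty, pow_zero, Finset.notMem_empty, if_false, one_mul,
        Finset.card_singleton, pow_one, Finset.mem_singleton, Finset.mem_insert] at h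
      have e2 : ({k, j} : Finset (Fin n)).card = 2 := Finset.card_pair (Ne.symm hjk)
      rw [e2] at h
      have f1 : (fun k' => if k' = k then u k' else v k')
          = Function.update (Function.update z j 1) k a := by
        funext i
        by_cases hi : i = k
        · subst hi; simp [hu]
        · simp [hi, hv]
      have f2 : (fun k' => if k' = j then u k' else v k') = Function.update z k b := by
        funext i
        by_cases hi : i = k
        · subst hi; simp [hv, Ne.symm hjk]
        · by_cases hij : i = j
          · subst hij; simp [hu, hi]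
          · simp [hv, hi, hij]
      have f3 : (fun k' => if k' = k ∨ k' = j then u k' else v k') = Function.update z k a := by
        funext i
        by_cases hi : i = k
        · subst hi; simp [hu]
        · by_cases hij : i = j
          · subst hij; simp [hu, hi]
          · simp [hv, hi, hij]
      rw [f1, f2, f3] at h
      norm_num at h
      linarith
    · simp only [Finset.mem_singleton]
      intro h0
      have := congrArg Finset.card h0
      rw [Finset.card_singleton, Finset.card_pair (Ne.symm hjk)] at this
      omega
    · simp only [Finset.mem_insert, Finset.mem_singleton]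
      rintro (h0 | h0)
      · exact hjk (Finset.singleton_injective h0).symm
      · have := congrArg Finset.card h0
        rw [Finset.card_singleton, Finset.card_pair (Ne.symm hjk)] at this
        omega
    · simp only [Finset.mem_insert, Finset.mem_singleton]
      rintro (h0 | h0 | h0)
      · exact Finset.singleton_ne_empty k h0.symm
      · exact Finset.singleton_ne_empty j h0.symm
      · have := congrArg Finset.card h0
        rw [Finset.card_empty, Finset.card_pair (Ne.symm hjk)] at this
        omega
  · intro T _ hT
    obtain ⟨i, hiT, hik, hij⟩ : ∃ i, i ∈ T ∧ i ≠ k ∧ i ≠ j := by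
      by_contra hcon
      push Not at hcon
      apply hT
      have hTs : T ⊆ {k, j} := by
        intro i hi
        rw [Finset.mem_insert, Finset.mem_singleton]
        by_cases hik : i = k
        · exact Or.inl hik
        · exact Or.inr (hcon i hi hik)
      simp only [Finset.mem_insert, Finset.mem_singleton]
      by_cases hkT : k ∈ T <;> by_cases hjT : j ∈ T
      · right; right; right
        exact Finset.Subset.antisymm hTs (by
          intro i hi
          rw [Finset.mem_insert, Finset.mem_singleton] at hi
          rcases hi with h | h <;> rw [h] <;> assumption)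
      · right; left
        ext i
        rw [Finset.mem_singleton]
        constructor
        · intro hi
          have := hTs hi
          rw [Finset.mem_insert, Finset.mem_singleton] at this
          rcases this with h | h
          · exact h
          · rw [h] at hi; exact absurd hi hjT
        · intro hi; rw [hi]; exact hkT
      · right; right; left
        ext i
        rw [Finset.mem_singleton]
        constructor
        · intro hi
          have := hTs hi
          rw [Finset.mem_insert, Finset.mem_singleton] at this
          rcases this with h | h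
          · rw [h] at hi; exact absurd hi hkT
          · exact h
        · intro hi; rw [hi]; exact hjT
      · left
        rw [Finset.eq_empty_iff_forall_notMem]
        intro i hi
        have := hTs hi
        rw [Finset.mem_insert, Finset.mem_singleton] at this
        rcases this with h | h <;> rw [h] at hi
        · exact hkT hi
        · exact hjT hi
    rw [hC.grounded _ i]
    · simp
    · simp [hiT, hu, Function.update_of_ne hik, Function.update_of_ne hij]

/-- raising all coordinates in `S` (not containing `k`) to `1` increases the increment. -/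
lemma incr_set (hC : IsCopula C) (z : Fin n → unitInterval) (k : Fin n)
    (a b : unitInterval) (hab : a ≤ b) (S : Finset (Fin n)) (hS : k ∉ S) :
    (C (Function.update z k b) : ℝ) - C (Function.update z k a) ≤
      C (Function.update (S.piecewise 1 z) k b) - C (Function.update (S.piecewise 1 z) k a) := by
  induction S using Finset.induction_on with
  | empty => simp
  | insert j S hj ih =>
    have hkS : k ∉ S := fun h => hS (Finset.mem_insert_of_mem h)
    have hjk : j ≠ k := fun h => hS (h ▸ Finset.mem_insert_self j S)
    refine (ih hkS).trans ?_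
    rw [Finset.piecewise_insert]
    exact incr_aux hC (S.piecewise 1 z) k j hjk a b hab

lemma step_le (hC : IsCopula C) (z : Fin n → unitInterval) (k : Fin n)
    (a b : unitInterval) (hab : a ≤ b) :
    (C (Function.update z k b) : ℝ) - C (Function.update z k a) ≤ b - a := by
  refine (incr_set hC z k a b hab (Finset.univ.erase k) (Finset.notMem_erase k _)).trans ?_
  have h1 : ∀ c : unitInterval,
      C (Function.update ((Finset.univ.erase k).piecewise 1 z) k c) = c := by
    intro c
    have := hC.margin (Function.update ((Finset.univ.erase k).piecewise 1 z) k c) k (by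
      intro j hj
      rw [Function.update_of_ne hj, Finset.piecewise_eq_of_mem _ _ _ (by simp [hj])]
      rfl)
    rw [this]; simp
  rw [h1, h1]

lemma step_abs (hC : IsCopula C) (z : Fin n → unitInterval) (k : Fin n)
    (a b : unitInterval) :
    |(C (Function.update z k b) : ℝ) - C (Function.update z k a)| ≤ |(b : ℝ) - a| := by
  rcases le_total a b with hab | hab
  · have h1 := mono_aux hC z k a b hab
    have h2 := step_le hC z k a b hab
    have h3 : (a : ℝ) ≤ b := hab
    rw [abs_of_nonneg (by linarith), abs_of_nonneg (by linarith)]
    exact h2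
  · have h1 := mono_aux hC z k b a hab
    have h2 := step_le hC z k b a hab
    have h3 : (b : ℝ) ≤ a := hab
    rw [abs_of_nonpos (by linarith), abs_of_nonpos (by linarith)]
    linarith

lemma lip_set (hC : IsCopula C) (x y : Fin n → unitInterval) (S : Finset (Fin n)) :
    |(C (S.piecewise y x) : ℝ) - C x| ≤ ∑ k ∈ S, |(y k : ℝ) - x k| := by
  induction S using Finset.induction_on with
  | empty => simp
  | insert j S hj ih =>
    rw [Finset.piecewise_insert, Finset.sum_insert hj]
    have h1 := step_abs hC (S.piecewise y x) j (x j) (y j)
    have h2 : Function.update (S.piecewise y x) j (x j) = S.piecewise y x := by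
      have : (S.piecewise y x) j = x j := Finset.piecewise_eq_of_notMem _ _ _ hj
      rw [← this, Function.update_eq_self]
    rw [h2] at h1
    calc |(C (Function.update (S.piecewise y x) j (y j)) : ℝ) - C x|
        ≤ |(C (Function.update (S.piecewise y x) j (y j)) : ℝ) - C (S.piecewise y x)|
          + |(C (S.piecewise y x) : ℝ) - C x| := abs_sub_le _ _ _
      _ ≤ _ := add_le_add h1 ih

lemma lip (hC : IsCopula C) : LipschitzWith n C := by
  apply LipschitzWith.of_dist_le_mul
  intro x y
  have h := lip_set hC y x Finset.univ
  rw [Finset.piecewise_univ] at h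
  have h2 : ∑ k, |(x k : ℝ) - y k| ≤ ∑ _k : Fin n, dist x y := by
    apply Finset.sum_le_sum
    intro k _
    have := dist_le_pi_dist x y k
    rwa [Subtype.dist_eq, Real.dist_eq] at this
  rw [Finset.sum_const, Finset.card_univ, Fintype.card_fin, nsmul_eq_mul] at h2
  rw [Subtype.dist_eq, Real.dist_eq]
  simpa using h.trans h2

lemma W_cont : Continuous (W : (Fin n → unitInterval) → ℝ) := by
  unfold W
  fun_prop

/-- the set where a copula attains the lower bound is closed. -/
lemma closed_eq (hC : IsCopula C) : IsClosed {x | (C x : ℝ) = W x} :=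
  isClosed_eq (continuous_subtype_val.comp (lip hC).continuous) W_cont

/-- the product copula. -/
noncomputable def P (x : Fin n → unitInterval) : unitInterval := ∏ k, x k

lemma P_coe (x : Fin n → unitInterval) : (P x : ℝ) = ∏ k, (x k : ℝ) := by
  unfold P
  exact map_prod (⟨⟨fun z : unitInterval => (z : ℝ), rfl⟩, fun _ _ => rfl⟩ : unitInterval →* ℝ) x
    Finset.univ

lemma P_copula : IsCopula (P : (Fin n → unitInterval) → unitInterval) where
  grounded x k hk := by
    unfold P
    exact Finset.prod_eq_zero (Finset.mem_univ k) hk
  margin x k h := by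
    unfold P
    rw [Finset.prod_eq_single k (fun j _ hj => h j hj) (fun h => absurd (Finset.mem_univ k) h)]
  increasing u v huv := by
    unfold boxVol
    have h1 : ∀ T : Finset (Fin n), (-1 : ℝ) ^ T.card * (P (fun k => if k ∈ T then u k else v k) : ℝ)
        = (∏ k ∈ T, (-(u k : ℝ))) * ∏ k ∈ Finset.univ \ T, (v k : ℝ) := by
      intro T
      rw [P_coe, ← Finset.prod_sdiff (Finset.subset_univ T), Finset.prod_neg]
      have e1 : ∏ x ∈ Finset.univ \ T, ((if x ∈ T then u x else v x : unitInterval) : ℝ)
          = ∏ k ∈ Finset.univ \ T, (v k : ℝ) := by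
        apply Finset.prod_congr rfl
        intro i hi
        rw [Finset.mem_sdiff] at hi
        rw [if_neg hi.2]
      have e2 : ∏ x ∈ T, ((if x ∈ T then u x else v x : unitInterval) : ℝ)
          = ∏ k ∈ T, (u k : ℝ) := by
        apply Finset.prod_congr rfl
        intro i hi
        rw [if_pos hi]
      rw [e1, e2]
      ring
    rw [Finset.sum_congr rfl (fun T _ => h1 T)]
    have h2 := Finset.prod_add (fun k => (-(u k : ℝ))) (fun k => (v k : ℝ)) (Finset.univ : Finset (Fin n))
    rw [Finset.powerset_univ] at h2
    rw [← h2]
    apply Finset.prod_nonneg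
    intro k _
    have : (u k : ℝ) ≤ v k := huv k
    linarith

/-- for `n ≥ 3` no copula equals `W` everywhere. -/
lemma not_W (hn : 3 ≤ n) (hC : IsCopula C) (h : ∀ x, (C x : ℝ) = W x) : False := by
  let hf : unitInterval := ⟨1/2, by norm_num, by norm_num⟩
  have h1 := hC.increasing (fun _ => hf) (fun _ => 1) (by
    intro k
    exact unitInterval.le_one')
  unfold boxVol at h1
  have h2 : ∀ T : Finset (Fin n),
      (-1 : ℝ) ^ T.card * (C (fun k => if k ∈ T then hf else 1) : ℝ)
      = (fun m : ℕ => (-1 : ℝ) ^ m * max (1 - (m : ℝ) / 2) 0) T.card := by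
    intro T
    rw [h]
    unfold W
    have e : ∑ k, ((if k ∈ T then hf else 1 : unitInterval) : ℝ) = n - (T.card : ℝ) / 2 := by
      have e1 : ∀ k, ((if k ∈ T then hf else 1 : unitInterval) : ℝ)
          = 1 - (if k ∈ T then (1/2 : ℝ) else 0) := by
        intro k
        split_ifs
        · show (1/2 : ℝ) = 1 - 1/2
          norm_num
        · simp
      rw [Finset.sum_congr rfl (fun k _ => e1 k), Finset.sum_sub_distrib, Finset.sum_ite_mem]
      simp
      ring
    rw [e]
    simp only
    congr 2
    ring
  rw [Finset.sum_congr rfl (fun T _ => h2 T)] at h1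
  have h3 := Finset.sum_powerset_apply_card (fun m : ℕ => (-1 : ℝ) ^ m * max (1 - (m : ℝ) / 2) 0)
    (x := (Finset.univ : Finset (Fin n)))
  rw [Finset.powerset_univ] at h3
  rw [h3, Finset.card_univ, Fintype.card_fin] at h1
  obtain ⟨m, rfl⟩ : ∃ m, n = m + 3 := ⟨n - 3, by omega⟩
  rw [Finset.sum_range_succ', Finset.sum_range_succ'] at h1
  have h4 : ∑ k ∈ Finset.range (m + 2), (m + 3).choose (k + 1 + 1) •
      ((-1 : ℝ) ^ (k + 1 + 1) * max (1 - ((k + 1 + 1 : ℕ) : ℝ) / 2) 0) = 0 := by
    apply Finset.sum_eq_zero
    intro k _
    rw [max_eq_right]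
    · simp
    · push_cast
      have : (0 : ℝ) ≤ k := Nat.cast_nonneg k
      linarith
  rw [h4] at h1
  simp only [Nat.choose_one_right, Nat.choose_zero_right, zero_add, pow_one, pow_zero,
    nsmul_eq_mul] at h1
  push_cast at h1
  norm_num at h1
  have : (0 : ℝ) ≤ m := Nat.cast_nonneg m
  linarith

/-- the set of copulas inside the space of continuous functions on the cube. -/
def K (n : ℕ) : Set (BoundedContinuousFunction (Fin n → unitInterval) unitInterval) :=
  {f | IsCopula (f : (Fin n → unitInterval) → unitInterval)}

lemma K_closed : IsClosed (K n) := by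
  have ev : ∀ x : Fin n → unitInterval,
      Continuous (fun f : BoundedContinuousFunction (Fin n → unitInterval) unitInterval => f x) :=
    fun x => (BoundedContinuousFunction.lipschitz_eval_const x).continuous
  have e : K n = (⋂ x : Fin n → unitInterval, ⋂ k : Fin n, ⋂ _ : x k = 0,
      {f : BoundedContinuousFunction (Fin n → unitInterval) unitInterval | f x = 0}) ∩
      ((⋂ x : Fin n → unitInterval, ⋂ k : Fin n, ⋂ _ : ∀ j, j ≠ k → x j = 1,
      {f : BoundedContinuousFunction (Fin n → unitInterval) unitInterval | f x = x k}) ∩
      ⋂ u : Fin n → unitInterval, ⋂ v : Fin n → unitInterval, ⋂ _ : u ≤ v,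
        {f : BoundedContinuousFunction (Fin n → unitInterval) unitInterval |
          0 ≤ boxVol (f : (Fin n → unitInterval) → unitInterval) u v}) := by
    ext f
    simp only [Set.mem_inter_iff, Set.mem_iInter, Set.mem_ofPred_eq]
    constructor
    · intro h
      exact ⟨h.grounded, h.margin, h.increasing⟩
    · rintro ⟨h1, h2, h3⟩
      exact ⟨h1, h2, h3⟩
  rw [e]
  refine IsClosed.inter ?_ (IsClosed.inter ?_ ?_)
  · refine isClosed_iInter fun x => isClosed_iInter fun k => isClosed_iInter fun _ => ?_
    exact isClosed_eq (ev x) continuous_const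
  · refine isClosed_iInter fun x => isClosed_iInter fun k => isClosed_iInter fun _ => ?_
    exact isClosed_eq (ev x) continuous_const
  · refine isClosed_iInter fun u => isClosed_iInter fun v => isClosed_iInter fun _ => ?_
    refine isClosed_le continuous_const ?_
    unfold boxVol
    refine continuous_finsetSum _ fun T _ => ?_
    exact continuous_const.mul (continuous_subtype_val.comp (ev _))

lemma K_compact : IsCompact (K n) := by
  apply BoundedContinuousFunction.arzela_ascoli₁ _ K_closed
  apply UniformEquicontinuous.equicontinuous
  apply LipschitzWith.uniformEquicontinuous _ (n : NNReal)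
  intro f
  exact lip f.2

/-- a copula as a bounded continuous function. -/
def toB (hC : IsCopula C) : BoundedContinuousFunction (Fin n → unitInterval) unitInterval :=
  BoundedContinuousFunction.mkOfCompact ⟨C, (lip hC).continuous⟩

theorem attained (n : ℕ) : ∃ C : (Fin n → unitInterval) → unitInterval, IsCopula C ∧
    volume {x | (C x : ℝ) = W x} = s n := by
  set V : Set ENNReal := {m | ∃ A : Set (Fin n → unitInterval), MeasurableSet A ∧
    (∃ C : (Fin n → unitInterval) → unitInterval, IsCopula C ∧ ∀ x ∈ A, (C x : ℝ) = W x) ∧
    m = volume A} with hV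
  have hs : s n = sSup V := rfl
  have hne : V.Nonempty := by
    refine ⟨0, ∅, MeasurableSet.empty, ⟨P, P_copula, fun x hx => absurd hx (Set.notMem_empty x)⟩, ?_⟩
    simp
  obtain ⟨m, hmono, hlim, hmem⟩ := exists_seq_tendsto_sSup hne (OrderTop.bddAbove V)
  choose A hA hCA hmA using hmem
  choose D hD hDA using hCA
  obtain ⟨f, hfK, φ, hφ, hconv⟩ := K_compact.tendsto_subseq (x := fun k => toB (hD k)) (fun k => hD k)
  refine ⟨f, hfK, le_antisymm ?_ ?_⟩
  · rw [hs]
    apply le_sSup
    exact ⟨_, (closed_eq hfK).measurableSet, ⟨f, hfK, fun x hx => hx⟩, rfl⟩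
  · -- lower bound
    rw [hs]
    have key : ∀ ε : ℝ, 0 < ε → sSup V ≤ volume {x | |(f x : ℝ) - W x| ≤ ε} := by
      intro ε hε
      have h1 : Tendsto (fun k => m (φ k)) atTop (𝓝 (sSup V)) := hlim.comp hφ.tendsto_atTop
      apply le_of_tendsto h1
      have h2 : ∀ᶠ k in atTop, dist (toB (hD (φ k))) f < ε :=
        (Metric.tendsto_nhds.1 hconv) ε hε
      filter_upwards [h2] with k hk
      rw [hmA (φ k)]
      apply measure_mono
      intro x hx
      have h3 := hDA (φ k) x hx
      have h4 : dist (toB (hD (φ k)) x) (f x) < ε :=
        lt_of_le_of_lt (BoundedContinuousFunction.dist_coe_le_dist x) hk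
      have h5 : toB (hD (φ k)) x = D (φ k) x := rfl
      rw [h5, Subtype.dist_eq, Real.dist_eq, h3, abs_sub_comm] at h4
      exact h4.le
    have hset : {x | (f x : ℝ) = W x} = ⋂ k : ℕ, {x | |(f x : ℝ) - W x| ≤ 1 / ((k : ℝ) + 1)} := by
      ext x
      simp only [Set.mem_iInter, Set.mem_ofPred_eq]
      constructor
      · intro h k
        rw [h]
        simp
        positivity
      · intro h
        by_contra hcon
        have hpos : 0 < |(f x : ℝ) - W x| := abs_pos.2 (sub_ne_zero.2 hcon)
        obtain ⟨k, hk⟩ := exists_nat_one_div_lt hpos
        exact absurd (h k) (not_le.2 hk)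
    have hclosed : ∀ ε : ℝ, IsClosed {x | |(f x : ℝ) - W x| ≤ ε} := by
      intro ε
      refine isClosed_le ?_ continuous_const
      exact ((continuous_subtype_val.comp f.continuous).sub W_cont).abs
    have hlim2 : Tendsto (fun k : ℕ => volume {x | |(f x : ℝ) - W x| ≤ 1 / ((k : ℝ) + 1)}) atTop
        (𝓝 (volume (⋂ k : ℕ, {x | |(f x : ℝ) - W x| ≤ 1 / ((k : ℝ) + 1)}))) := by
      apply tendsto_measure_iInter_atTop
      · intro k
        exact (hclosed _).measurableSet.nullMeasurableSet
      · intro a b hab x hx
        simp only [Set.mem_ofPred_eq] at hx ⊢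
        refine le_trans hx ?_
        apply one_div_le_one_div_of_le
        · positivity
        · have : (a : ℝ) ≤ b := Nat.cast_le.2 hab
          linarith
      · exact ⟨0, measure_ne_top _ _⟩
    rw [hset]
    exact ge_of_tendsto' hlim2 (fun k => key _ (by positivity))

lemma openPos : (volume : Measure unitInterval).IsOpenPosMeasure where
  open_pos := by
    intro U hU hne h0
    obtain ⟨O, hO, rfl⟩ := isOpen_induced_iff.1 hU
    obtain ⟨x, hx⟩ := hne
    rw [unitInterval.volume_apply] at h0
    have h1 : (O ∩ Set.Ioo (0 : ℝ) 1).Nonempty := by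
      have hcl : (x : ℝ) ∈ closure (Set.Ioo (0 : ℝ) 1) := by
        rw [closure_Ioo (by norm_num)]
        exact x.2
      exact mem_closure_iff.1 hcl O hO hx
    have h2 : IsOpen (O ∩ Set.Ioo (0 : ℝ) 1) := hO.inter isOpen_Ioo
    have h3 := h2.measure_pos volume h1
    have h4 : O ∩ Set.Ioo (0 : ℝ) 1 ⊆ Subtype.val '' (Subtype.val ⁻¹' O : Set unitInterval) := by
      rintro y ⟨hy, hy2⟩
      exact ⟨⟨y, hy2.1.le, hy2.2.le⟩, hy, rfl⟩
    exact absurd (measure_mono_null h4 h0) h3.ne'

theorem s_lt_one (n : ℕ) (hn : 3 ≤ n) : s n < 1 := by
  obtain ⟨C, hC, hCs⟩ := attained n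
  rw [← hCs]
  have h1 : volume {x : Fin n → unitInterval | (C x : ℝ) = W x} ≤ 1 := prob_le_one
  refine lt_of_le_of_ne h1 ?_
  intro heq
  have hae : ∀ᵐ x : Fin n → unitInterval, (C x : ℝ) = W x := by
    rw [ae_iff]
    have := prob_compl_eq_zero_iff (μ := (volume : Measure (Fin n → unitInterval)))
      (closed_eq hC).measurableSet
    exact this.2 heq
  have := openPos
  have hall := Continuous.ae_eq_iff_eq (volume : Measure (Fin n → unitInterval))
    (continuous_subtype_val.comp (lip hC).continuous) (W_cont (n := n))
  have hfun := hall.1 hae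
  exact not_W hn hC (fun x => congrFun hfun x)

/-- For every `n ≥ 3` one has `s_n < 1` and the supremum is attained. -/
theorem result (n : ℕ) (hn : 3 ≤ n) :
    s n < 1 ∧ ∃ C : (Fin n → unitInterval) → unitInterval, IsCopula C ∧
      volume {x : Fin n → unitInterval | (C x : ℝ) = W x} = s n :=
  ⟨s_lt_one n hn, attained n⟩

end Pool.Agent.Results.MP_2d7e0f_pr.SupAttained
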